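import Pool.Agent.V1120.HamDeck.Defs

namespace Pool.Agent.V1120.HamDeck

open Equiv

variable {m L : ℕ}

/-! ### Isomorphisms between members of the same parity -/

/-- Relabelling by an even permutation. -/
def relab (β : alternatingGroup (Fin m)) : Vtx m L ≃ Vtx m L where
  toFun
    | .H i k => .H i k
    | .X i => .X i
    | .Y j => .Y (β.1 j)
    | .GA θ i k => .GA (β * θ) i k
    | .GV θ i k => .GV (β * θ) i k
    | .GB θ i k => .GB (β * θ) i k
    | .A => .A
    | .B => .B
    | .W => .W
  invFun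
    | .H i k => .H i k
    | .X i => .X i
    | .Y j => .Y (β.1⁻¹ j)
    | .GA θ i k => .GA (β⁻¹ * θ) i k
    | .GV θ i k => .GV (β⁻¹ * θ) i k
    | .GB θ i k => .GB (β⁻¹ * θ) i k
    | .A => .A
    | .B => .B
    | .W => .W
  left_inv x := by cases x <;> simp
  right_inv x := by cases x <;> simp

lemma R_relab (β : alternatingGroup (Fin m)) (ν : Perm (Fin m)) (x y : Vtx m L) :
    R (β.1 * ν) (relab β x) (relab β y) ↔ R ν x y := by
  cases x <;> cases y <;> simp [R, relab]

/-- `G_ν ≅ G_{βν}` for even `β`. -/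
def isoMul (β : alternatingGroup (Fin m)) (ν : Perm (Fin m)) :
    Gr L ν ≃g Gr L (β.1 * ν) where
  toEquiv := relab β
  map_rel_iff' := by
    intro x y
    simp only [Gr_adj, R_relab]

lemma iso_of_sign (L : ℕ) (ν ν' : Perm (Fin m)) (h : Perm.sign ν = Perm.sign ν') :
    Nonempty (Gr L ν ≃g Gr L ν') := by
  have hb : ν' * ν⁻¹ ∈ alternatingGroup (Fin m) := by
    rw [Perm.mem_alternatingGroup, map_mul, ← h, Perm.sign_inv]
    exact Int.units_mul_self _
  have := isoMul (L := L) ⟨ν' * ν⁻¹, hb⟩ ν
  simp only [inv_mul_cancel_right] at this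
  exact ⟨this⟩

/-! ### Induced counts are isomorphism invariant -/

lemma indCount_congr {V W : Type*} {t : ℕ} {G : SimpleGraph V} {G' : SimpleGraph W}
    (e : G ≃g G') (F : SimpleGraph (Fin t)) : indCount G F = indCount G' F := by
  classical
  unfold indCount
  refine Nat.card_congr ?_
  refine (e.toEquiv.finsetCongr).subtypeEquiv ?_
  intro S
  have h1 : ((e.toEquiv.finsetCongr) S).card = S.card := by simp
  rw [h1]
  refine and_congr Iff.rfl ?_
  have hS : (((e.toEquiv.finsetCongr) S : Finset W) : Set W) = e '' (S : Set V) := by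
    ext x
    simp
  have iso : G.induce (S : Set V) ≃g
      G'.induce (((e.toEquiv.finsetCongr) S : Finset W) : Set W) := by
    rw [hS]
    exact
      { toEquiv := e.toEquiv.image (S : Set V)
        map_rel_iff' := by
          intro a b
          exact e.map_rel_iff' }
  exact ⟨fun ⟨f⟩ => ⟨iso.symm.trans f⟩, fun ⟨f⟩ => ⟨iso.trans f⟩⟩

end Pool.Agent.V1120.HamDeck
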