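import Mathlib

/-!
The graph family `Gr ν` (`ν` a permutation of `Fin m`) used for the disproof of
the reconstruction question for the number of Hamilton cycles.
-/

namespace Pool.Agent.V1120.HamDeck

open Equiv

/-- The number of `t`-element vertex sets of `G` that induce a copy of `F`. -/
noncomputable def indCount {V : Type*} {t : ℕ} (G : SimpleGraph V)
    (F : SimpleGraph (Fin t)) : ℕ :=
  Nat.card {S : Finset V // S.card = t ∧ Nonempty (G.induce (S : Set V) ≃g F)}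

/-- The `t`-vertex decks of `G` and `G'` agree as multisets of isomorphism classes. -/
def SameDeck {V W : Type*} (G : SimpleGraph V) (G' : SimpleGraph W) (t : ℕ) : Prop :=
  ∀ F : SimpleGraph (Fin t), indCount G F = indCount G' F

/-- The number of Hamilton cycles of `G`, counted as subgraphs. -/
noncomputable def hamCount {V : Type*} [DecidableEq V] (G : SimpleGraph V) : ℕ :=
  Nat.card {C : G.Subgraph //
    ∃ (v : V) (p : G.Walk v v), p.IsHamiltonianCycle ∧ p.toSubgraph = C}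

/-- The vertices: handle vertices `H i k`, start vertices `X i`, end vertices `Y j`, gadget
vertices `GA`, `GV`, `GB` indexed by an even permutation, a unit and a rung, and `A, B, W`. -/
inductive Vtx (m L : ℕ) : Type
  | H (i : Fin m) (k : Fin L)
  | X (i : Fin m)
  | Y (j : Fin m)
  | GA (θ : alternatingGroup (Fin m)) (i : Fin m) (k : Fin 4)
  | GV (θ : alternatingGroup (Fin m)) (i : Fin m) (k : Fin 4)
  | GB (θ : alternatingGroup (Fin m)) (i : Fin m) (k : Fin 4)
  | A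
  | B
  | W

open Vtx

/-- Orientation of the edges. -/
def R {m L : ℕ} (ν : Perm (Fin m)) : Vtx m L → Vtx m L → Prop
  | .X i, .H i' k => i = i' ∧ i.val ≠ 0 ∧ k.val = 0
  | .A, .H i k => i.val = 0 ∧ k.val = 0
  | .X i, .W => i.val = 0
  | .W, .B => True
  | .H i k, .H i' k' => i = i' ∧ k.val + 1 = k'.val
  | .H i k, .Y j => ν i = j ∧ k.val + 1 = L
  | .GA θ i k, .GV θ' i' k' => θ = θ' ∧ i = i' ∧ k = k'
  | .GV θ i k, .GB θ' i' k' => θ = θ' ∧ i = i' ∧ k = k'
  | .GA θ i k, .GA θ' i' k' => (θ = θ' ∧ i = i' ∧ k.val + 1 = k'.val) ∨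
      (θ = θ' ∧ i.val + 1 = i'.val ∧ k.val = 3 ∧ k'.val = 0) ∨
      (θ ≠ θ' ∧ i.val + 1 = m ∧ k.val = 3 ∧ i'.val = 0 ∧ k'.val = 0)
  | .GB θ i k, .GB θ' i' k' => θ = θ' ∧ i = i' ∧ k.val + 1 = k'.val
  | .X i, .GB _ i' k => i = i' ∧ k.val = 0
  | .GB θ i k, .Y j => θ.1 i = j ∧ k.val = 3
  | .B, .GA _ i k => i.val = 0 ∧ k.val = 0
  | .GA _ i k, .A => i.val + 1 = m ∧ k.val = 3
  | _, _ => False

lemma R_irrefl {m L : ℕ} (ν : Perm (Fin m)) (x : Vtx m L) : ¬ R ν x x := by
  cases x <;> simp [R]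

/-- The graph `G_ν`. -/
def Gr {m : ℕ} (L : ℕ) (ν : Perm (Fin m)) : SimpleGraph (Vtx m L) where
  Adj x y := R ν x y ∨ R ν y x
  symm := ⟨fun _ _ h => h.symm⟩
  loopless := ⟨fun x h => h.elim (R_irrefl ν x) (R_irrefl ν x)⟩

lemma Gr_adj {m L : ℕ} (ν : Perm (Fin m)) (x y : Vtx m L) :
    (Gr L ν).Adj x y ↔ R ν x y ∨ R ν y x := Iff.rfl

/-- The vertex set as a sum type. -/
def vtxEquiv (m L : ℕ) : Vtx m L ≃
    (Fin m × Fin L) ⊕ (Fin m ⊕ (Fin m ⊕ ((alternatingGroup (Fin m) × Fin m × Fin 4) ⊕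
      ((alternatingGroup (Fin m) × Fin m × Fin 4) ⊕
      ((alternatingGroup (Fin m) × Fin m × Fin 4) ⊕ Fin 3))))) where
  toFun
    | .H i k => .inl (i, k)
    | .X i => .inr (.inl i)
    | .Y j => .inr (.inr (.inl j))
    | .GA θ i k => .inr (.inr (.inr (.inl (θ, i, k))))
    | .GV θ i k => .inr (.inr (.inr (.inr (.inl (θ, i, k)))))
    | .GB θ i k => .inr (.inr (.inr (.inr (.inr (.inl (θ, i, k))))))
    | .A => .inr (.inr (.inr (.inr (.inr (.inr 0)))))
    | .B => .inr (.inr (.inr (.inr (.inr (.inr 1)))))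
    | .W => .inr (.inr (.inr (.inr (.inr (.inr 2)))))
  invFun
    | .inl (i, k) => .H i k
    | .inr (.inl i) => .X i
    | .inr (.inr (.inl j)) => .Y j
    | .inr (.inr (.inr (.inl (θ, i, k)))) => .GA θ i k
    | .inr (.inr (.inr (.inr (.inl (θ, i, k))))) => .GV θ i k
    | .inr (.inr (.inr (.inr (.inr (.inl (θ, i, k)))))) => .GB θ i k
    | .inr (.inr (.inr (.inr (.inr (.inr 0))))) => .A
    | .inr (.inr (.inr (.inr (.inr (.inr 1))))) => .B
    | .inr (.inr (.inr (.inr (.inr (.inr 2))))) => .W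
  left_inv x := by cases x <;> rfl
  right_inv x := by
    rcases x with ⟨i, k⟩ | i | j | ⟨θ, i, k⟩ | ⟨θ, i, k⟩ | ⟨θ, i, k⟩ | x
    iterate 6 rfl
    fin_cases x <;> rfl

noncomputable instance (m L : ℕ) : DecidableEq (Vtx m L) := Classical.decEq _

noncomputable instance (m L : ℕ) : Fintype (Vtx m L) :=
  Fintype.ofEquiv _ (vtxEquiv m L).symm

/-- The number of vertices outside of the handles. -/
noncomputable def Kc (m : ℕ) : ℕ :=
  2 * m + 12 * (Fintype.card (alternatingGroup (Fin m)) * m) + 3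

lemma card_Vtx (m L : ℕ) : Fintype.card (Vtx m L) = m * L + Kc m := by
  rw [Fintype.card_congr (vtxEquiv m L)]
  simp only [Fintype.card_sum, Fintype.card_prod, Fintype.card_fin, Kc]
  ring

end Pool.Agent.V1120.HamDeck
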