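import Pool.Agent.V1120.HamDeck.NonHam

namespace Pool.Agent.V1120.HamDeck

open Equiv

/-! ### From Hamilton cycles to relations and from successor functions to Hamilton cycles -/

/-- A Hamilton cycle gives the relational structure. -/
def HC.ofWalk {V : Type*} [DecidableEq V] {G : SimpleGraph V} {v : V} (p : G.Walk v v)
    (hp : p.IsHamiltonianCycle) : HC G where
  c := p.toSubgraph.Adj
  symm h := h.symm
  sub h := h.adj_sub
  deg x := by
    have h1 := hp.isCycle.ncard_neighborSet_toSubgraph_eq_two (hp.mem_support x)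
    obtain ⟨a, b, hab, h⟩ := Set.ncard_eq_two.1 h1
    refine ⟨a, b, hab, fun y => ?_⟩
    have h2 : y ∈ p.toSubgraph.neighborSet x ↔ y ∈ ({a, b} : Set V) := by rw [h]
    simpa using h2
  conn S hne hS x := by
    obtain ⟨z, hz⟩ := hne
    have hx : x ∈ p.toSubgraph.verts := by
      rw [SimpleGraph.Walk.mem_verts_toSubgraph]; exact hp.mem_support x
    have hzv : z ∈ p.toSubgraph.verts := by
      rw [SimpleGraph.Walk.mem_verts_toSubgraph]; exact hp.mem_support z
    obtain ⟨w⟩ := (p.toSubgraph_connected).coe.preconnected ⟨z, hzv⟩ ⟨x, hx⟩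
    have key : ∀ (a b : p.toSubgraph.verts) (_ : p.toSubgraph.coe.Walk a b), S a.1 → S b.1 := by
      intro a b w
      induction w with
      | nil => exact id
      | cons h q ih => exact fun ha => ih (hS _ ha _ h)
    exact key _ _ w hz

theorem exists_ham_of_succ {V : Type*} [Fintype V] [DecidableEq V] (G : SimpleGraph V)
    (s : V → V) (x0 : V) (hadj : ∀ v, G.Adj v (s v)) (horb : ∀ v, ∃ k, s^[k] x0 = v)
    (hper : ∃ v, s v = x0) (hcard : 3 ≤ Fintype.card V) :
    ∃ (v : V) (p : G.Walk v v), p.IsHamiltonianCycle := by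
  classical
  have hmem : x0 ∈ Function.periodicPts s := by
    obtain ⟨v, hv⟩ := hper
    obtain ⟨k, hk⟩ := horb v
    refine Function.mk_mem_periodicPts (n := k + 1) (by omega) ?_
    rw [Function.IsPeriodicPt, Function.IsFixedPt, Function.iterate_succ_apply', hk, hv]
  set P := Function.minimalPeriod s x0 with hP
  have hPpos : 0 < P := Function.minimalPeriod_pos_of_mem_periodicPts hmem
  have hinj : Set.InjOn (fun k => s^[k] x0) (Set.Iio P) :=
    Function.iterate_injOn_Iio_minimalPeriod
  have hbij : Function.Bijective (fun k : Fin P => s^[k.val] x0) := by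
    constructor
    · intro a b hab
      exact Fin.ext (hinj a.isLt b.isLt hab)
    · intro v
      obtain ⟨k, hk⟩ := horb v
      refine ⟨⟨k % P, Nat.mod_lt _ hPpos⟩, ?_⟩
      show s^[k % P] x0 = v
      rw [hP, Function.iterate_mod_minimalPeriod_eq, hk]
  have hPN : P = Fintype.card V := by
    have := Fintype.card_of_bijective hbij
    simpa using this
  have hPx : s^[P] x0 = x0 := Function.iterate_minimalPeriod
  -- the walk
  have hw : ∀ n : ℕ, ∃ w : G.Walk x0 (s^[n] x0),
      w.support = (List.range (n + 1)).map (fun k => s^[k] x0) ∧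
      w.edges = (List.range n).map (fun k => s(s^[k] x0, s^[k + 1] x0)) ∧ w.length = n := by
    intro n
    induction n with
    | zero => exact ⟨SimpleGraph.Walk.nil, by simp, by simp, rfl⟩
    | succ n ih =>
      obtain ⟨w, h1, h2, h3⟩ := ih
      have ha : G.Adj (s^[n] x0) (s^[n + 1] x0) := by
        rw [Function.iterate_succ_apply']; exact hadj _
      refine ⟨w.concat ha, ?_, ?_, ?_⟩
      · rw [SimpleGraph.Walk.support_concat, h1, List.range_succ (n := n + 1), List.map_append]
        simp
      · rw [SimpleGraph.Walk.edges_concat, h2, List.range_succ, List.map_append]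
        simp
      · rw [SimpleGraph.Walk.length_concat, h3]
  obtain ⟨w, h1, h2, h3⟩ := hw (P - 1)
  have hlast : G.Adj (s^[P - 1] x0) x0 := by
    have := hadj (s^[P - 1] x0)
    rw [← Function.iterate_succ_apply' s (P - 1) x0] at this
    rw [show (P - 1).succ = P by omega, hPx] at this
    exact this
  refine ⟨_, SimpleGraph.Walk.cons hlast w, ?_⟩
  rw [SimpleGraph.Walk.isHamiltonianCycle_iff_isCycle_and_length_eq]
  refine ⟨?_, ?_⟩
  · rw [SimpleGraph.Walk.cons_isCycle_iff]
    refine ⟨?_, ?_⟩
    · rw [SimpleGraph.Walk.isPath_def, h1, List.nodup_map_iff_inj_on List.nodup_range]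
      intro a ha b hb hab
      rw [List.mem_range] at ha hb
      exact hinj (show a < P by omega) (show b < P by omega) hab
    · rw [h2]
      intro hmem
      rw [List.mem_map] at hmem
      obtain ⟨k, hk, hk2⟩ := hmem
      rw [List.mem_range] at hk
      rw [Sym2.eq_iff] at hk2
      rcases hk2 with ⟨h4, _⟩ | ⟨h4, h5⟩
      · have := hinj (show k < P by omega) (show P - 1 < P by omega) h4
        omega
      · have e1 := hinj (show k < P by omega) (show 0 < P by omega) h4
        have e2 := hinj (show k + 1 < P by omega) (show P - 1 < P by omega) h5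
        omega
  · rw [SimpleGraph.Walk.length_cons, h3]
    omega

end Pool.Agent.V1120.HamDeck
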