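import Pool.Agent.V1120.HamDeck.Deck

namespace Pool.Agent.V1120.HamDeck

open Equiv

variable {m L : ℕ}

/-- Swap the tails (positions `> k`) of handles `i` and `j`. -/
def tsw (i j : Fin m) (k : ℕ) : Vtx m L → Vtx m L
  | .H a b => .H (if k < b.val then swap i j a else a) b
  | .X a => .X a
  | .Y a => .Y a
  | .GA θ a b => .GA θ a b
  | .GV θ a b => .GV θ a b
  | .GB θ a b => .GB θ a b
  | .A => .A
  | .B => .B
  | .W => .W

lemma tsw_tsw (i j : Fin m) (k : ℕ) (x : Vtx m L) : tsw i j k (tsw i j k x) = x := by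
  cases x <;> simp only [tsw]
  split_ifs <;> simp

/-- The tail swap as a permutation. -/
def tswE (i j : Fin m) (k : ℕ) : Perm (Vtx m L) :=
  ⟨tsw i j k, tsw i j k, tsw_tsw i j k, tsw_tsw i j k⟩

/-- `x` is not one of the two vertices at position `k` of the handles `i`, `j`. -/
def Okv (i j : Fin m) (k : ℕ) (x : Vtx m L) : Prop :=
  ∀ b : Fin L, b.val = k → x ≠ .H i b ∧ x ≠ .H j b

lemma R_tsw (i j : Fin m) (k : ℕ) (ν : Perm (Fin m)) (x y : Vtx m L)
    (hkL : k < L) (hx : Okv i j k x) (_hy : Okv i j k y) :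
    R (ν * swap i j) (tsw i j k x) (tsw i j k y) ↔ R ν x y := by
  rcases x with ⟨a, b⟩ | a | a | ⟨θ, a, b⟩ | ⟨θ, a, b⟩ | ⟨θ, a, b⟩ | _ | _ | _ <;>
  rcases y with ⟨a', b'⟩ | a' | a' | ⟨θ', a', b'⟩ | ⟨θ', a', b'⟩ | ⟨θ', a', b'⟩ | _ | _ | _ <;>
  simp only [R, tsw]
  · -- H H
    constructor
    · rintro ⟨h1, h2⟩
      refine ⟨?_, h2⟩
      rcases lt_trichotomy k b.val with hk | hk | hk
      · rw [if_pos hk, if_pos (by omega)] at h1
        exact (swap i j).injective h1
      · have h3 := hx b hk.symm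
        rw [if_neg (by omega), if_pos (by omega)] at h1
        have ha1 : a ≠ i := fun e => h3.1 (by rw [e])
        have ha2 : a ≠ j := fun e => h3.2 (by rw [e])
        have : swap i j a = a' := by rw [h1]; simp
        rw [swap_apply_of_ne_of_ne ha1 ha2] at this
        exact this
      · rw [if_neg (by omega), if_neg (by omega)] at h1
        exact h1
    · rintro ⟨h1, h2⟩
      refine ⟨?_, h2⟩
      subst h1
      rcases lt_trichotomy k b.val with hk | hk | hk
      · rw [if_pos hk, if_pos (by omega)]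
      · have h3 := hx b hk.symm
        rw [if_neg (by omega), if_pos (by omega)]
        have ha1 : a ≠ i := fun e => h3.1 (by rw [e])
        have ha2 : a ≠ j := fun e => h3.2 (by rw [e])
        rw [swap_apply_of_ne_of_ne ha1 ha2]
      · rw [if_neg (by omega), if_neg (by omega)]
  · -- H Y
    refine and_congr_left ?_
    intro h2
    rcases lt_trichotomy k b.val with hk | hk | hk
    · rw [if_pos hk]
      simp
    · have h3 := hx b hk.symm
      have ha1 : a ≠ i := fun e => h3.1 (by rw [e])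
      have ha2 : a ≠ j := fun e => h3.2 (by rw [e])
      rw [if_neg (by omega)]
      simp only [Perm.coe_mul, Function.comp_apply]
      rw [swap_apply_of_ne_of_ne ha1 ha2]
    · omega
  · -- X H
    constructor
    · rintro ⟨h1, h2, h3⟩
      rw [if_neg (by omega)] at h1
      exact ⟨h1, h2, h3⟩
    · rintro ⟨h1, h2, h3⟩
      rw [if_neg (by omega)]
      exact ⟨h1, h2, h3⟩
  · -- A H
    constructor
    · rintro ⟨h1, h3⟩
      rw [if_neg (by omega)] at h1
      exact ⟨h1, h3⟩
    · rintro ⟨h1, h3⟩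
      rw [if_neg (by omega)]
      exact ⟨h1, h3⟩

/-- The property counted by the deck. -/
def Pind {t : ℕ} (F : SimpleGraph (Fin t)) (ν : Perm (Fin m)) (S : Finset (Vtx m L)) : Prop :=
  Nonempty ((Gr L ν).induce (S : Set (Vtx m L)) ≃g F)

/-- The tail swap is an isomorphism of induced subgraphs. -/
lemma induce_iso (i j : Fin m) (k : ℕ) (ν : Perm (Fin m)) (hkL : k < L)
    (S : Finset (Vtx m L)) (hS : ∀ b : Fin L, b.val = k → .H i b ∉ S ∧ .H j b ∉ S) :
    Nonempty ((Gr L ν).induce (S : Set (Vtx m L)) ≃g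
      (Gr L (ν * swap i j)).induce
        ((S.map (tswE i j k).toEmbedding : Finset (Vtx m L)) : Set (Vtx m L))) := by
  have hok : ∀ x ∈ S, Okv i j k x := by
    intro x hx b hb
    constructor
    · rintro rfl
      exact (hS b hb).1 hx
    · rintro rfl
      exact (hS b hb).2 hx
  rw [Finset.coe_map]
  refine ⟨
    { toEquiv := (tswE i j k).image (S : Set (Vtx m L))
      map_rel_iff' := ?_ }⟩
  rintro ⟨a, ha⟩ ⟨b, hb⟩
  show (R (ν * swap i j) (tsw i j k a) (tsw i j k b) ∨
    R (ν * swap i j) (tsw i j k b) (tsw i j k a)) ↔ (R ν a b ∨ R ν b a)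
  rw [R_tsw i j k ν a b hkL (hok a ha) (hok b hb), R_tsw i j k ν b a hkL (hok b hb) (hok a ha)]

lemma Pind_swap {t : ℕ} (F : SimpleGraph (Fin t)) (i j : Fin m) (k : ℕ) (ν : Perm (Fin m))
    (hkL : k < L) (S : Finset (Vtx m L))
    (hS : ∀ b : Fin L, b.val = k → .H i b ∉ S ∧ .H j b ∉ S) :
    Pind F (ν * swap i j) (S.map (tswE i j k).toEmbedding) ↔ Pind F ν S := by
  obtain ⟨e⟩ := induce_iso i j k ν hkL S hS
  exact ⟨fun ⟨f⟩ => ⟨e.trans f⟩, fun ⟨f⟩ => ⟨e.symm.trans f⟩⟩

/-- The handles missing at position `k`. -/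
noncomputable def Miss (S : Finset (Vtx m L)) (k : ℕ) : Finset (Fin m) :=
  open Classical in Finset.univ.filter (fun i => ∀ b : Fin L, b.val = k → .H i b ∉ S)

lemma mem_Miss (S : Finset (Vtx m L)) (k : ℕ) (i : Fin m) :
    i ∈ Miss S k ↔ ∀ b : Fin L, b.val = k → .H i b ∉ S := by
  simp [Miss]

lemma exists_good (S : Finset (Vtx m L)) (hS : S.card + L < m * L) :
    ∃ k, k < L ∧ 1 < (Miss S k).card := by
  classical
  by_contra hcon
  push Not at hcon
  set Q : Finset (Fin m × Fin L) := Finset.univ.filter (fun p => .H p.1 p.2 ∉ S) with hQ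
  set Q' : Finset (Fin m × Fin L) := Finset.univ.filter (fun p => ¬ (.H p.1 p.2 ∉ S)) with hQ'
  have h1 : Q.card + Q'.card = m * L := by
    rw [hQ, hQ', Finset.card_filter_add_card_filter_not]
    simp
  have h2 : Q.card ≤ L := by
    have : Q.card ≤ (Finset.univ : Finset (Fin L)).card := by
      refine Finset.card_le_card_of_injOn Prod.snd (fun _ _ => Finset.mem_univ _) ?_
      rintro ⟨a, b⟩ hab ⟨a', b'⟩ hab' hbb
      simp only at hbb
      subst hbb
      simp only [hQ, Finset.coe_filter, Finset.mem_univ, true_and, Set.mem_ofPred_eq] at hab hab'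
      have h3 := hcon b.val b.isLt
      rw [Finset.card_le_one] at h3
      have h4 := h3 a ((mem_Miss _ _ _).2 (fun c hc => by
        have : c = b := Fin.ext hc
        rw [this]; exact hab)) a' ((mem_Miss _ _ _).2 (fun c hc => by
        have : c = b := Fin.ext hc
        rw [this]; exact hab'))
      rw [h4]
    simpa using this
  have h3 : Q'.card ≤ S.card := by
    refine Finset.card_le_card_of_injOn (fun p => Vtx.H p.1 p.2) ?_ ?_
    · intro p hp
      simpa [hQ'] using hp
    · rintro ⟨a, b⟩ _ ⟨a', b'⟩ _ h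
      simp only [Vtx.H.injEq] at h
      rw [h.1, h.2]
  omega

lemma Miss_map (i j : Fin m) (k : ℕ) (S : Finset (Vtx m L)) (k' : ℕ) (hk' : k' ≤ k) :
    Miss (S.map (tswE i j k).toEmbedding) k' = Miss S k' := by
  ext a
  simp only [mem_Miss]
  refine forall_congr' (fun b => forall_congr' (fun hb => not_congr ?_))
  rw [Finset.mem_map_equiv]
  have : (tswE i j k).symm (.H a b) = .H a b := by
    show tsw i j k (.H a b) = .H a b
    simp only [tsw]
    rw [if_neg (by omega)]
  rw [this]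

/-- The first position at which two handles are missing. -/
noncomputable def Kpos (S : Finset (Vtx m L)) : ℕ := sInf {k | k < L ∧ 1 < (Miss S k).card}

lemma Kpos_mem (S : Finset (Vtx m L)) (hS : S.card + L < m * L) :
    Kpos S < L ∧ 1 < (Miss S (Kpos S)).card :=
  Nat.sInf_mem (exists_good S hS)

lemma Kpos_map (i j : Fin m) (S : Finset (Vtx m L)) (hS : S.card + L < m * L) :
    Kpos (S.map (tswE i j (Kpos S)).toEmbedding) = Kpos S := by
  have h1 := Kpos_mem S hS
  set S' := S.map (tswE i j (Kpos S)).toEmbedding with hS'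
  have h2 : S'.card + L < m * L := by rw [hS', Finset.card_map]; exact hS
  have h3 := Kpos_mem S' h2
  apply le_antisymm
  · apply Nat.sInf_le
    refine ⟨h1.1, ?_⟩
    rw [hS', Miss_map i j (Kpos S) S _ le_rfl]
    exact h1.2
  · by_contra hlt
    push Not at hlt
    have h4 : Miss S' (Kpos S') = Miss S (Kpos S') := Miss_map i j (Kpos S) S _ hlt.le
    rw [h4] at h3
    have h5 : Kpos S ≤ Kpos S' := Nat.sInf_le h3
    omega

/-- The signed count vanishes. -/
theorem signed_sum (hm : 0 < m) {t : ℕ} (ht : t + L < m * L) (F : SimpleGraph (Fin t)) :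
    (open Classical in
    ∑ x ∈ (Finset.univ : Finset (Perm (Fin m))) ×ˢ
      (Finset.univ : Finset (Vtx m L)).powersetCard t,
      (if Pind F x.1 x.2 then ((Perm.sign x.1 : ℤˣ) : ℤ) else 0)) = 0 := by
  classical
  have : Nonempty (Fin m) := ⟨⟨0, hm⟩⟩
  have hch : ∀ M : Finset (Fin m), ∃ p : Fin m × Fin m, 1 < M.card →
      p.1 ∈ M ∧ p.2 ∈ M ∧ p.1 ≠ p.2 := by
    intro M
    by_cases hM : 1 < M.card
    · obtain ⟨a, ha, b, hb, hab⟩ := Finset.one_lt_card.mp hM
      exact ⟨(a, b), fun _ => ⟨ha, hb, hab⟩⟩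
    · exact ⟨(Classical.arbitrary _, Classical.arbitrary _), fun h => absurd h hM⟩
  choose pr hpr using hch
  set I : Finset (Vtx m L) → Fin m := fun S => (pr (Miss S (Kpos S))).1 with hI
  set J : Finset (Vtx m L) → Fin m := fun S => (pr (Miss S (Kpos S))).2 with hJ
  have hIJ : ∀ S : Finset (Vtx m L), S.card = t →
      (∀ b : Fin L, b.val = Kpos S → .H (I S) b ∉ S ∧ .H (J S) b ∉ S) ∧ I S ≠ J S := by
    intro S hS
    obtain ⟨h1, h2⟩ := Kpos_mem S (by omega)
    obtain ⟨h3, h4, h5⟩ := hpr _ h2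
    exact ⟨fun b hb => ⟨(mem_Miss _ _ _).1 h3 b hb, (mem_Miss _ _ _).1 h4 b hb⟩, h5⟩
  have hinv : ∀ S : Finset (Vtx m L), S.card = t → ∀ S',
      S' = S.map (tswE (I S) (J S) (Kpos S)).toEmbedding →
      Kpos S' = Kpos S ∧ I S' = I S ∧ J S' = J S := by
    rintro S hS S' rfl
    have h1 := Kpos_map (I S) (J S) S (by omega)
    refine ⟨h1, ?_, ?_⟩
    · simp only [hI]
      rw [h1]
      rw [Miss_map _ _ _ _ _ le_rfl]
    · simp only [hJ]
      rw [h1]
      rw [Miss_map _ _ _ _ _ le_rfl]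
  refine Finset.sum_involution
    (fun x _ => (x.1 * swap (I x.2) (J x.2),
      x.2.map (tswE (I x.2) (J x.2) (Kpos x.2)).toEmbedding)) ?_ ?_ ?_ ?_
  · rintro ⟨ν, S⟩ hx
    simp only [Finset.mem_product, Finset.mem_univ, true_and, Finset.mem_powersetCard_univ] at hx
    obtain ⟨h1, h2⟩ := hIJ S hx
    have h3 := Pind_swap F (I S) (J S) (Kpos S) ν (Kpos_mem S (by omega)).1 S h1
    simp only [h3]
    split_ifs
    · rw [Perm.sign_mul, Perm.sign_swap h2]
      simp
    · rfl
  · rintro ⟨ν, S⟩ hx _ heq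
    simp only [Finset.mem_product, Finset.mem_univ, true_and, Finset.mem_powersetCard_univ] at hx
    obtain ⟨h1, h2⟩ := hIJ S hx
    have h3 : ν * swap (I S) (J S) = ν := congrArg Prod.fst heq
    rw [mul_eq_left, swap_eq_one_iff] at h3
    exact h2 h3
  · rintro ⟨ν, S⟩ hx
    simp only [Finset.mem_product, Finset.mem_univ, true_and,
      Finset.mem_powersetCard_univ] at hx ⊢
    rw [Finset.card_map]
    exact hx
  · rintro ⟨ν, S⟩ hx
    simp only [Finset.mem_product, Finset.mem_univ, true_and, Finset.mem_powersetCard_univ] at hx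
    obtain ⟨h1, h2, h3⟩ := hinv S hx _ rfl
    simp only [h1, h2, h3]
    refine Prod.ext ?_ ?_
    · simp [mul_assoc]
    · ext x
      simp only [Finset.mem_map_equiv]
      have : ∀ y : Vtx m L, (tswE (I S) (J S) (Kpos S)).symm
          ((tswE (I S) (J S) (Kpos S)).symm y) = y := fun y => tsw_tsw _ _ _ y
      rw [this]

lemma indCount_eq {t : ℕ} (F : SimpleGraph (Fin t)) (ν : Perm (Fin m)) :
    ((indCount (Gr L ν) F : ℕ) : ℤ) = (open Classical in
      ∑ S ∈ (Finset.univ : Finset (Vtx m L)).powersetCard t, if Pind F ν S then (1 : ℤ) else 0) := by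
  classical
  rw [Finset.sum_boole]
  congr 1
  unfold indCount
  rw [Nat.card_eq_fintype_card, Fintype.card_subtype]
  congr 1
  ext S
  rw [Finset.mem_filter, Finset.mem_filter, Finset.mem_powersetCard_univ]
  simp [Pind]

/-- The `t`-decks of `G_1` and `G_τ` agree for an odd `τ`. -/
theorem sameDeck (hm : 0 < m) {t : ℕ} (ht : t + L < m * L) (τ : Perm (Fin m))
    (hτ : Perm.sign τ = -1) :
    SameDeck (Gr L (1 : Perm (Fin m))) (Gr L τ) t := by
  classical
  intro F
  set N : Perm (Fin m) → ℤ := fun ν => (indCount (Gr L ν) F : ℤ) with hN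
  have hNs : ∀ ν ν' : Perm (Fin m), Perm.sign ν = Perm.sign ν' → N ν = N ν' := by
    intro ν ν' h
    obtain ⟨e⟩ := iso_of_sign L ν ν' h
    simp only [hN]
    rw [indCount_congr e F]
  have hsum : ∑ ν : Perm (Fin m), ((Perm.sign ν : ℤˣ) : ℤ) * N ν = 0 := by
    have h := signed_sum (L := L) hm ht F
    rw [Finset.sum_product] at h
    rw [← h]
    refine Finset.sum_congr rfl (fun ν _ => ?_)
    simp only [hN]
    rw [indCount_eq, Finset.mul_sum]
    refine Finset.sum_congr rfl (fun S _ => ?_)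
    split_ifs <;> simp
  have hsum2 : ∑ ν : Perm (Fin m), ((Perm.sign ν : ℤˣ) : ℤ) * N (ν * τ) = 0 := by
    have h2 : ∑ ν : Perm (Fin m), ((Perm.sign (ν * τ) : ℤˣ) : ℤ) * N (ν * τ) = 0 := by
      rw [← hsum]
      exact Equiv.sum_comp (Equiv.mulRight τ) (fun ν => ((Perm.sign ν : ℤˣ) : ℤ) * N ν)
    rw [← neg_eq_zero, ← Finset.sum_neg_distrib, ← h2]
    refine Finset.sum_congr rfl (fun ν _ => ?_)
    rw [Perm.sign_mul, hτ]
    simp
  have hconst : ∀ ν : Perm (Fin m),
      ((Perm.sign ν : ℤˣ) : ℤ) * N ν - ((Perm.sign ν : ℤˣ) : ℤ) * N (ν * τ) = N 1 - N τ := by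
    intro ν
    rcases Int.units_eq_one_or (Perm.sign ν) with h | h
    · rw [hNs ν 1 (by rw [h, Perm.sign_one]), hNs (ν * τ) τ (by rw [Perm.sign_mul, h, one_mul]), h]
      simp
    · rw [hNs ν τ (by rw [h, hτ]), hNs (ν * τ) 1 (by rw [Perm.sign_mul, h, hτ, Perm.sign_one]; rfl),
        h]
      simp
      ring
  have h3 : ∑ _ν : Perm (Fin m), (N 1 - N τ) = 0 := by
    rw [← Finset.sum_congr rfl (fun ν _ => hconst ν), Finset.sum_sub_distrib, hsum, hsum2, sub_zero]
  rw [Finset.sum_const, smul_eq_zero] at h3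
  rcases h3 with h3 | h3
  · exact absurd h3 (Finset.card_ne_zero.mpr ⟨1, Finset.mem_univ _⟩)
  · have : N 1 = N τ := by linarith
    simp only [hN] at this
    exact_mod_cast this

end Pool.Agent.V1120.HamDeck
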