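import Pool.Agent.V1120.HamDeck.Succ
import Pool.Agent.V1120.HamDeck.Swap

namespace Pool.Agent.V1120.HamDeck

open Equiv

lemma hamCount_pos {V : Type*} [Fintype V] [DecidableEq V] {G : SimpleGraph V}
    (h : ∃ (v : V) (p : G.Walk v v), p.IsHamiltonianCycle) : 0 < hamCount G := by
  obtain ⟨v, p, hp⟩ := h
  unfold hamCount
  have : Nonempty {C : G.Subgraph //
    ∃ (v : V) (p : G.Walk v v), p.IsHamiltonianCycle ∧ p.toSubgraph = C} :=
    ⟨⟨p.toSubgraph, v, p, hp, rfl⟩⟩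
  exact Nat.card_pos

lemma hamCount_zero {V : Type*} [DecidableEq V] {G : SimpleGraph V}
    (h : ¬ ∃ (v : V) (p : G.Walk v v), p.IsHamiltonianCycle) : hamCount G = 0 := by
  unfold hamCount
  have : IsEmpty {C : G.Subgraph //
    ∃ (v : V) (p : G.Walk v v), p.IsHamiltonianCycle ∧ p.toSubgraph = C} :=
    ⟨fun ⟨C, v, p, hp, _⟩ => h ⟨v, p, hp⟩⟩
  exact Nat.card_of_isEmpty

lemma ham_iso {V W : Type*} [DecidableEq V] [DecidableEq W] {G : SimpleGraph V}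
    {G' : SimpleGraph W} (e : G ≃g G')
    (h : ∃ (v : V) (p : G.Walk v v), p.IsHamiltonianCycle) :
    ∃ (v : W) (p : G'.Walk v v), p.IsHamiltonianCycle := by
  obtain ⟨v, p, hp⟩ := h
  exact ⟨_, p.map e.toHom, hp.map e.bijective⟩

/-- The construction, for all ratios `c < 1`. -/
theorem main (c : ℝ) (hc0 : 0 ≤ c) (hc1 : c < 1) (N : ℕ) :
    ∃ n : ℕ, N ≤ n ∧ ∃ G G' : SimpleGraph (Fin n),
      SameDeck G G' ⌊c * n⌋₊ ∧ 0 < hamCount G ∧ hamCount G' = 0 := by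
  classical
  have h1c : 0 < 1 - c := by linarith
  obtain ⟨k, hk⟩ := exists_nat_gt (1 / (1 - c))
  set M : ℕ := 2 * k + 2 with hMdef
  have hMe : Even M := ⟨k + 1, by omega⟩
  set δ : ℝ := (M + 1 : ℕ) * (1 - c) - 1 with hδ
  have hδpos : 0 < δ := by
    rw [div_lt_iff₀ h1c] at hk
    have h1 : (k : ℝ) ≤ ((M + 1 : ℕ) : ℝ) := by
      exact_mod_cast (by omega : k ≤ M + 1)
    have h2 := mul_le_mul_of_nonneg_right h1 h1c.le
    rw [hδ]
    linarith
  obtain ⟨L0, hL0⟩ := exists_nat_gt ((Kc (M + 1) : ℝ) / δ)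
  set L : ℕ := N + L0 + 1 with hL
  have hLpos : 0 < L := by omega
  set n : ℕ := (M + 1) * L + Kc (M + 1) with hn
  have hNn : N ≤ n := by
    have : L ≤ (M + 1) * L := Nat.le_mul_of_pos_left L (by omega)
    omega
  have hKL : (Kc (M + 1) : ℝ) < L * δ := by
    rw [div_lt_iff₀ hδpos] at hL0
    have h1 : (L0 : ℝ) ≤ L := by exact_mod_cast (by omega : L0 ≤ L)
    have h2 := mul_le_mul_of_nonneg_right h1 hδpos.le
    linarith
  have ht : ⌊c * n⌋₊ + L < (M + 1) * L := by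
    have h1 : (⌊c * n⌋₊ : ℝ) ≤ c * n := Nat.floor_le (by positivity)
    have hK0 : (0 : ℝ) ≤ Kc (M + 1) := Nat.cast_nonneg _
    have h2 : c * (Kc (M + 1) : ℝ) ≤ Kc (M + 1) := mul_le_of_le_one_left hK0 hc1.le
    have h3 : (n : ℝ) = ((M + 1 : ℕ) : ℝ) * L + Kc (M + 1) := by
      rw [hn]; push_cast; ring
    have h4 : ((⌊c * n⌋₊ : ℕ) : ℝ) + L < ((M + 1 : ℕ) : ℝ) * L := by
      rw [h3] at h1
      rw [hδ] at hKL
      rw [h3]
      have e1 : c * (((M + 1 : ℕ) : ℝ) * L + Kc (M + 1)) =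
        c * ((M + 1 : ℕ) : ℝ) * L + c * (Kc (M + 1) : ℝ) := by ring
      have e2 : (L : ℝ) * (((M + 1 : ℕ) : ℝ) * (1 - c) - 1) =
        ((M + 1 : ℕ) : ℝ) * L - c * ((M + 1 : ℕ) : ℝ) * L - L := by ring
      rw [e2] at hKL
      have e3 := h1.trans_eq e1
      linarith
    exact_mod_cast h4
  have hcard : Fintype.card (Vtx (M + 1) L) = n := card_Vtx _ _
  let e : Vtx (M + 1) L ≃ Fin n := Fintype.equivFinOfCardEq hcard
  set τ : Perm (Fin (M + 1)) := swap ⟨0, by omega⟩ ⟨1, by omega⟩ with hτ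
  have hτs : Perm.sign τ = -1 := Perm.sign_swap (by simp)
  let e1 := SimpleGraph.Iso.map e (Gr L (1 : Perm (Fin (M + 1))))
  let e2 := SimpleGraph.Iso.map e (Gr L τ)
  refine ⟨n, hNn, _, _, ?_, hamCount_pos (ham_iso e1 (ham_one hMe (by omega) hLpos)),
    hamCount_zero (G := (Gr L τ).map e) ?_⟩
  · intro F
    exact (indCount_congr e1 F).symm.trans
      ((sameDeck (by omega) ht τ hτs F).trans (indCount_congr e2 F))
  · intro h
    obtain ⟨v, p, hp⟩ := ham_iso e2.symm h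
    have h1 := even_of_HC (hMe.add_one) (by omega) hLpos τ (HC.ofWalk p hp)
    rw [hτs] at h1
    exact absurd h1 (by decide)

end Pool.Agent.V1120.HamDeck
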