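import Pool.Agent.V1120.HamDeck.Defs

namespace Pool.Agent.V1120.HamDeck

open Equiv

variable {m L : ℕ}

/-! ### Neighbourhoods -/

section
variable {ν : Perm (Fin m)} {θ : alternatingGroup (Fin m)} {i : Fin m} {y : Vtx m L}

lemma nV {k : Fin 4} (h : (Gr L ν).Adj (.GV θ i k) y) : y = .GA θ i k ∨ y = .GB θ i k := by
  rw [Gr_adj] at h
  rcases y with ⟨a, b⟩ | a | a | ⟨θ', a, b⟩ | ⟨θ', a, b⟩ | ⟨θ', a, b⟩ | _ | _ | _ <;>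
    simp [R] at h ⊢ <;> grind

lemma nA1 (h : (Gr L ν).Adj (.GA θ i 1) y) :
    y = .GV θ i 1 ∨ y = .GA θ i 0 ∨ y = .GA θ i 2 := by
  rw [Gr_adj] at h
  rcases y with ⟨a, b⟩ | a | a | ⟨θ', a, b⟩ | ⟨θ', a, b⟩ | ⟨θ', a, b⟩ | _ | _ | _ <;>
    simp [R] at h ⊢ <;> grind

lemma nA2 (h : (Gr L ν).Adj (.GA θ i 2) y) :
    y = .GV θ i 2 ∨ y = .GA θ i 1 ∨ y = .GA θ i 3 := by
  rw [Gr_adj] at h
  rcases y with ⟨a, b⟩ | a | a | ⟨θ', a, b⟩ | ⟨θ', a, b⟩ | ⟨θ', a, b⟩ | _ | _ | _ <;>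
    simp [R] at h ⊢ <;> grind

lemma nA0 {i' : Fin m} (hi : i'.val + 1 = i.val) (h : (Gr L ν).Adj (.GA θ i 0) y) :
    y = .GV θ i 0 ∨ y = .GA θ i 1 ∨ y = .GA θ i' 3 := by
  rw [Gr_adj] at h
  rcases y with ⟨a, b⟩ | a | a | ⟨θ', a, b⟩ | ⟨θ', a, b⟩ | ⟨θ', a, b⟩ | _ | _ | _ <;>
    simp [R] at h ⊢ <;> grind

lemma nA3 {i' : Fin m} (hi : i.val + 1 = i'.val) (h : (Gr L ν).Adj (.GA θ i 3) y) :
    y = .GV θ i 3 ∨ y = .GA θ i 2 ∨ y = .GA θ i' 0 := by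
  rw [Gr_adj] at h
  rcases y with ⟨a, b⟩ | a | a | ⟨θ', a, b⟩ | ⟨θ', a, b⟩ | ⟨θ', a, b⟩ | _ | _ | _ <;>
    simp [R] at h ⊢ <;> grind

lemma nB0 (h : (Gr L ν).Adj (.GB θ i 0) y) :
    y = .GV θ i 0 ∨ y = .GB θ i 1 ∨ y = .X i := by
  rw [Gr_adj] at h
  rcases y with ⟨a, b⟩ | a | a | ⟨θ', a, b⟩ | ⟨θ', a, b⟩ | ⟨θ', a, b⟩ | _ | _ | _ <;>
    simp [R] at h ⊢ <;> grind

lemma nB1 (h : (Gr L ν).Adj (.GB θ i 1) y) :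
    y = .GV θ i 1 ∨ y = .GB θ i 0 ∨ y = .GB θ i 2 := by
  rw [Gr_adj] at h
  rcases y with ⟨a, b⟩ | a | a | ⟨θ', a, b⟩ | ⟨θ', a, b⟩ | ⟨θ', a, b⟩ | _ | _ | _ <;>
    simp [R] at h ⊢ <;> grind

lemma nB2 (h : (Gr L ν).Adj (.GB θ i 2) y) :
    y = .GV θ i 2 ∨ y = .GB θ i 1 ∨ y = .GB θ i 3 := by
  rw [Gr_adj] at h
  rcases y with ⟨a, b⟩ | a | a | ⟨θ', a, b⟩ | ⟨θ', a, b⟩ | ⟨θ', a, b⟩ | _ | _ | _ <;>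
    simp [R] at h ⊢ <;> grind

lemma nB3 (h : (Gr L ν).Adj (.GB θ i 3) y) :
    y = .GV θ i 3 ∨ y = .GB θ i 2 ∨ y = .Y (θ.1 i) := by
  rw [Gr_adj] at h
  rcases y with ⟨a, b⟩ | a | a | ⟨θ', a, b⟩ | ⟨θ', a, b⟩ | ⟨θ', a, b⟩ | _ | _ | _ <;>
    simp [R] at h ⊢ <;> grind

lemma nW (h : (Gr L ν).Adj .W y) : (∃ i : Fin m, i.val = 0 ∧ y = .X i) ∨ y = .B := by
  rw [Gr_adj] at h
  rcases y with ⟨a, b⟩ | a | a | ⟨θ', a, b⟩ | ⟨θ', a, b⟩ | ⟨θ', a, b⟩ | _ | _ | _ <;>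
    simp [R] at h ⊢ <;> grind

lemma nX0 (hi : i.val = 0) (h : (Gr L ν).Adj (.X i) y) :
    y = .W ∨ ∃ θ, y = .GB θ i 0 := by
  rw [Gr_adj] at h
  rcases y with ⟨a, b⟩ | a | a | ⟨θ', a, b⟩ | ⟨θ', a, b⟩ | ⟨θ', a, b⟩ | _ | _ | _ <;>
    simp [R] at h ⊢ <;> grind

/-- Lower neighbour of a handle vertex. -/
def loH (i : Fin m) (k : Fin L) : Vtx m L :=
  if k.val = 0 then (if i.val = 0 then .A else .X i)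
  else .H i ⟨k.val - 1, by omega⟩

/-- Upper neighbour of a handle vertex. -/
def hiH (ν : Perm (Fin m)) (i : Fin m) (k : Fin L) : Vtx m L :=
  if h : k.val + 1 < L then .H i ⟨k.val + 1, h⟩ else .Y (ν i)

lemma nH {k : Fin L} (h : (Gr L ν).Adj (.H i k) y) : y = loH i k ∨ y = hiH ν i k := by
  rw [Gr_adj] at h
  unfold loH hiH
  rcases y with ⟨a, b⟩ | a | a | ⟨θ', a, b⟩ | ⟨θ', a, b⟩ | ⟨θ', a, b⟩ | _ | _ | _ <;>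
    simp [R] at h ⊢ <;> grind

end

end Pool.Agent.V1120.HamDeck
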