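import Pool.Agent.V1120.HamDeck.Nbr

namespace Pool.Agent.V1120.HamDeck

open Equiv

/-- A connected spanning 2-regular subgraph, as a relation. -/
structure HC {V : Type*} (G : SimpleGraph V) where
  c : V → V → Prop
  symm : ∀ {x y}, c x y → c y x
  sub : ∀ {x y}, c x y → G.Adj x y
  deg : ∀ x, ∃ p q, p ≠ q ∧ ∀ y, c x y ↔ y = p ∨ y = q
  conn : ∀ S : V → Prop, (∃ x, S x) → (∀ x, S x → ∀ y, c x y → S y) → ∀ x, S x

namespace HC

variable {V : Type*} {G : SimpleGraph V} (C : HC G)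

lemma ne {x y : V} (h : C.c x y) : x ≠ y := (C.sub h).ne

/-- If all neighbours of `x` are among `p`, `q` then both are neighbours in `C`. -/
lemma forced {x p q : V} (h : ∀ y, G.Adj x y → y = p ∨ y = q) : C.c x p ∧ C.c x q := by
  obtain ⟨a, b, hab, h1⟩ := C.deg x
  have ha : C.c x a := (h1 a).2 (Or.inl rfl)
  have hb : C.c x b := (h1 b).2 (Or.inr rfl)
  rcases h a (C.sub ha) with rfl | rfl <;> rcases h b (C.sub hb) with rfl | rfl
  · exact absurd rfl hab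
  · exact ⟨ha, hb⟩
  · exact ⟨hb, ha⟩
  · exact absurd rfl hab

/-- Two neighbours determine the neighbourhood. -/
lemma two {x p q : V} (hpq : p ≠ q) (hp : C.c x p) (hq : C.c x q) {y : V} (hy : C.c x y) :
    y = p ∨ y = q := by
  obtain ⟨a, b, hab, h1⟩ := C.deg x
  rw [h1] at hp hq hy
  rcases hp with rfl | rfl <;> rcases hq with rfl | rfl <;> rcases hy with rfl | rfl <;> simp_all

lemma not_third {x p q r : V} (hpq : p ≠ q) (hpr : r ≠ p) (hqr : r ≠ q) (hp : C.c x p)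
    (hq : C.c x q) : ¬ C.c x r := fun hr => by
  rcases C.two hpq hp hq hr with h | h
  · exact hpr h
  · exact hqr h

/-- If `x` has `G`-neighbours among `p, q, r` and `q` is not a `C`-neighbour, `r` is. -/
lemma third {x p q r : V} (h : ∀ y, G.Adj x y → y = p ∨ y = q ∨ y = r) (hq : ¬ C.c x q) :
    C.c x r := by
  obtain ⟨a, b, hab, h1⟩ := C.deg x
  have ha : C.c x a := (h1 a).2 (Or.inl rfl)
  have hb : C.c x b := (h1 b).2 (Or.inr rfl)
  rcases h a (C.sub ha) with rfl | rfl | rfl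
  · rcases h b (C.sub hb) with rfl | rfl | rfl
    · exact absurd rfl hab
    · exact absurd hb hq
    · exact hb
  · exact absurd ha hq
  · exact ha

/-- No closed proper vertex set. -/
lemma closed (S : V → Prop) {x0 w : V} (h0 : S x0) (hw : ¬ S w)
    (h : ∀ x, S x → ∃ p q, p ≠ q ∧ S p ∧ S q ∧ C.c x p ∧ C.c x q) : False := by
  refine hw (C.conn S ⟨x0, h0⟩ ?_ w)
  intro x hx y hy
  obtain ⟨p, q, hpq, hp, hq, h1, h2⟩ := h x hx
  rcases C.two hpq h1 h2 hy with rfl | rfl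
  · exact hp
  · exact hq

/-- No closed 6-cycle. -/
lemma no_six {a b c d e f w : V}
    (hab : C.c a b) (hbc : C.c b c) (hcd : C.c c d) (hde : C.c d e) (hef : C.c e f)
    (hfa : C.c f a) (hac : a ≠ c) (hbd : b ≠ d) (hce : c ≠ e) (hdf : d ≠ f) (hea : e ≠ a)
    (hfb : f ≠ b) (hw : w ≠ a ∧ w ≠ b ∧ w ≠ c ∧ w ≠ d ∧ w ≠ e ∧ w ≠ f) : False := by
  refine C.closed (fun x => x = a ∨ x = b ∨ x = c ∨ x = d ∨ x = e ∨ x = f) (x0 := a) (w := w)
    (Or.inl rfl) (by tauto) ?_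
  rintro x (rfl | rfl | rfl | rfl | rfl | rfl)
  · exact ⟨f, b, hfb, by simp, by simp, C.symm hfa, hab⟩
  · exact ⟨a, c, hac, by simp, by simp, C.symm hab, hbc⟩
  · exact ⟨b, d, hbd, by simp, by simp, C.symm hbc, hcd⟩
  · exact ⟨c, e, hce, by simp, by simp, C.symm hcd, hde⟩
  · exact ⟨d, f, hdf, by simp, by simp, C.symm hde, hef⟩
  · exact ⟨e, a, hea, by simp, by simp, C.symm hef, hfa⟩

end HC

variable {m L : ℕ}

section
variable {ν : Perm (Fin m)} (C : HC (Gr L ν))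

lemma cAV (θ : alternatingGroup (Fin m)) (i : Fin m) (k : Fin 4) :
    C.c (.GA θ i k) (.GV θ i k) :=
  C.symm (C.forced (x := .GV θ i k) (fun _ => nV)).1

lemma cBV (θ : alternatingGroup (Fin m)) (i : Fin m) (k : Fin 4) :
    C.c (.GB θ i k) (.GV θ i k) :=
  C.symm (C.forced (x := .GV θ i k) (fun _ => nV)).2

/-- Inner top pattern of a unit. -/
def Inner (θ : alternatingGroup (Fin m)) (i : Fin m) : Prop :=
  C.c (.GA θ i 0) (.GA θ i 1) ∧ C.c (.GA θ i 2) (.GA θ i 3)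

/-- Through pattern at the bottom of a unit. -/
def Thru (θ : alternatingGroup (Fin m)) (i : Fin m) : Prop :=
  C.c (.GB θ i 0) (.X i) ∧ C.c (.GB θ i 1) (.GB θ i 2) ∧ C.c (.GB θ i 3) (.Y (θ.1 i))

lemma inner_zero (θ : alternatingGroup (Fin m)) (i : Fin m)
    (h : C.c (.GB θ i 0) (.X i)) : Inner C θ i := by
  have h01 : ¬ C.c (.GB θ i 0) (.GB θ i 1) :=
    C.not_third (by simp) (by simp) (by simp) (cBV C θ i 0) h
  have h12 : C.c (.GB θ i 1) (.GB θ i 2) :=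
    C.third (fun _ => nB1) (fun h => h01 (C.symm h))
  have a12 : ¬ C.c (.GA θ i 1) (.GA θ i 2) := by
    intro h
    exact C.no_six (w := .W) (cAV C θ i 1) (C.symm (cBV C θ i 1)) h12 (cBV C θ i 2)
      (C.symm (cAV C θ i 2)) (C.symm h) (by simp) (by simp) (by simp) (by simp) (by simp)
      (by simp) (by simp)
  refine ⟨C.symm (C.third (p := .GV θ i 1) (q := .GA θ i 2) (fun y hy => ?_) a12),
    C.third (fun _ => nA2) (fun h => a12 (C.symm h))⟩
  rcases nA1 hy with h | h | h <;> simp [h]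

lemma inner_succ (θ : alternatingGroup (Fin m)) (i i' : Fin m) (hi : i.val + 1 = i'.val)
    (h : Inner C θ i) : Inner C θ i' := by
  have h1 : ¬ C.c (.GA θ i 3) (.GA θ i' 0) :=
    C.not_third (by simp) (by simp) (by simp) (cAV C θ i 3) (C.symm h.2)
  have h2 : C.c (.GA θ i' 0) (.GA θ i' 1) := by
    refine C.third (p := .GV θ i' 0) (q := .GA θ i 3) (fun y hy => ?_) (fun h => h1 (C.symm h))
    rcases nA0 hi hy with h | h | h <;> simp [h]
  have h3 : ¬ C.c (.GA θ i' 1) (.GA θ i' 2) :=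
    C.not_third (by simp) (by simp) (by simp) (cAV C θ i' 1) (C.symm h2)
  exact ⟨h2, C.third (fun _ => nA2) (fun h => h3 (C.symm h))⟩

lemma thru_of_inner (θ : alternatingGroup (Fin m)) (i : Fin m) (h : Inner C θ i) :
    Thru C θ i := by
  have b01 : ¬ C.c (.GB θ i 0) (.GB θ i 1) := by
    intro hb
    exact C.no_six (w := .W) (cAV C θ i 0) (C.symm (cBV C θ i 0)) hb (cBV C θ i 1)
      (C.symm (cAV C θ i 1)) (C.symm h.1) (by simp) (by simp) (by simp) (by simp) (by simp)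
      (by simp) (by simp)
  have b12 : C.c (.GB θ i 1) (.GB θ i 2) := C.third (fun _ => nB1) (fun h => b01 (C.symm h))
  have b23 : ¬ C.c (.GB θ i 3) (.GB θ i 2) := fun h =>
    C.not_third (by simp) (by simp) (by simp) (cBV C θ i 2) (C.symm b12) (C.symm h)
  exact ⟨C.third (fun _ => nB0) b01, b12, C.third (fun _ => nB3) b23⟩

lemma exists_start (hm : 0 < m) : ∃ θ, C.c (.GB θ ⟨0, hm⟩ 0) (.X ⟨0, hm⟩) := by
  obtain ⟨p, q, hpq, h⟩ := C.deg (.X ⟨0, hm⟩)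
  have hp : C.c (.X ⟨0, hm⟩) p := (h p).2 (Or.inl rfl)
  have hq : C.c (.X ⟨0, hm⟩) q := (h q).2 (Or.inr rfl)
  rcases nX0 rfl (C.sub hp) with h1 | ⟨θ, h1⟩
  · rcases nX0 rfl (C.sub hq) with h2 | ⟨θ, h2⟩
    · exact absurd (h1.trans h2.symm) hpq
    · exact ⟨θ, C.symm (h2 ▸ hq)⟩
  · exact ⟨θ, C.symm (h1 ▸ hp)⟩

lemma all_thru (hm : 0 < m) :
    ∃ θ, ∀ i, Inner C θ i ∧ Thru C θ i := by
  obtain ⟨θ, h⟩ := exists_start C hm
  have h0 := inner_zero C θ _ h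
  have hall : ∀ n (hn : n < m), Inner C θ ⟨n, hn⟩ := by
    intro n
    induction n with
    | zero => intro _; exact h0
    | succ n ih => intro hn; exact inner_succ C θ ⟨n, by omega⟩ _ rfl (ih (by omega))
  exact ⟨θ, fun i => ⟨hall i.val i.isLt, thru_of_inner C θ i (hall i.val i.isLt)⟩⟩

end

/-- The closed set attached to a set of indices. -/
def clo (θ : alternatingGroup (Fin m)) (O : Fin m → Prop) : Vtx m L → Prop
  | .H i _ => O i
  | .X i => O i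
  | .Y j => O (θ.1⁻¹ j)
  | .GA θ' i _ => θ' = θ ∧ O i
  | .GV θ' i _ => θ' = θ ∧ O i
  | .GB θ' i _ => θ' = θ ∧ O i
  | _ => False

lemma orbit_full {ν : Perm (Fin m)} (C : HC (Gr L ν)) (hL : 0 < L)
    (θ : alternatingGroup (Fin m))
    (h : ∀ i, Inner C θ i ∧ Thru C θ i) (O : Fin m → Prop)
    (hO : ∀ i, O i ↔ O ((ν⁻¹ * θ.1) i)) (hO0 : ∀ i : Fin m, i.val = 0 → ¬ O i) (i : Fin m) :
    ¬ O i := by
  intro hi
  have hH : ∀ (i : Fin m) (k : Fin L), C.c (.H i k) (loH i k) ∧ C.c (.H i k) (hiH ν i k) :=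
    fun i k => C.forced (fun _ => nH)
  refine C.closed (clo θ O) (x0 := .X i) (w := .W) hi (by simp [clo]) ?_
  rintro x hx
  rcases x with ⟨a, b⟩ | a | a | ⟨θ', a, b⟩ | ⟨θ', a, b⟩ | ⟨θ', a, b⟩ | _ | _ | _
  · -- H
    have ha : O a := hx
    have ha0 : a.val ≠ 0 := fun h => hO0 a h ha
    refine ⟨loH a b, hiH ν a b, ?_, ?_, ?_, (hH a b).1, (hH a b).2⟩
    · unfold loH hiH
      simp only [ha0, if_false]
      split_ifs <;> simp
    · unfold loH
      simp only [ha0, if_false]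
      split_ifs <;> exact ha
    · unfold hiH
      split_ifs
      · exact ha
      · show O (θ.1⁻¹ (ν a))
        rw [hO]
        simpa using ha
  · -- X
    have ha : O a := hx
    have ha0 : a.val ≠ 0 := fun h => hO0 a h ha
    refine ⟨.H a ⟨0, hL⟩, .GB θ a 0, by simp, ha, ⟨rfl, ha⟩, ?_, C.symm (h a).2.1⟩
    have := (hH a ⟨0, hL⟩).1
    simp only [loH, ha0, if_true, if_false] at this
    exact C.symm this
  · -- Y
    have ha : O (θ.1⁻¹ a) := hx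
    refine ⟨.GB θ (θ.1⁻¹ a) 3, .H (ν⁻¹ a) ⟨L - 1, by omega⟩, by simp, ⟨rfl, ha⟩, ?_, ?_, ?_⟩
    · show O (ν⁻¹ a)
      rw [hO] at ha
      simpa using ha
    · have := (h (θ.1⁻¹ a)).2.2.2
      have e : θ.1 (θ.1⁻¹ a) = a := by simp
      rw [e] at this
      exact C.symm this
    · have := (hH (ν⁻¹ a) ⟨L - 1, by omega⟩).2
      unfold hiH at this
      have e : ν (ν⁻¹ a) = a := by simp
      rw [dif_neg (by simp; omega), e] at this
      exact C.symm this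
  · -- GA
    obtain ⟨rfl, ha⟩ := hx
    have hI := (h a).1
    fin_cases b
    · exact ⟨.GV θ' a 0, .GA θ' a 1, by simp, ⟨rfl, ha⟩, ⟨rfl, ha⟩, cAV C θ' a 0, hI.1⟩
    · exact ⟨.GV θ' a 1, .GA θ' a 0, by simp, ⟨rfl, ha⟩, ⟨rfl, ha⟩, cAV C θ' a 1, C.symm hI.1⟩
    · exact ⟨.GV θ' a 2, .GA θ' a 3, by simp, ⟨rfl, ha⟩, ⟨rfl, ha⟩, cAV C θ' a 2, hI.2⟩
    · exact ⟨.GV θ' a 3, .GA θ' a 2, by simp, ⟨rfl, ha⟩, ⟨rfl, ha⟩, cAV C θ' a 3, C.symm hI.2⟩
  · -- GV
    obtain ⟨rfl, ha⟩ := hx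
    exact ⟨.GA θ' a b, .GB θ' a b, by simp, ⟨rfl, ha⟩, ⟨rfl, ha⟩, C.symm (cAV C θ' a b),
      C.symm (cBV C θ' a b)⟩
  · -- GB
    obtain ⟨rfl, ha⟩ := hx
    have hT := (h a).2
    fin_cases b
    · exact ⟨.GV θ' a 0, .X a, by simp, ⟨rfl, ha⟩, ha, cBV C θ' a 0, hT.1⟩
    · exact ⟨.GV θ' a 1, .GB θ' a 2, by simp, ⟨rfl, ha⟩, ⟨rfl, ha⟩, cBV C θ' a 1, hT.2.1⟩
    · exact ⟨.GV θ' a 2, .GB θ' a 1, by simp, ⟨rfl, ha⟩, ⟨rfl, ha⟩, cBV C θ' a 2,
        C.symm hT.2.1⟩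
    · refine ⟨.GV θ' a 3, .Y (θ'.1 a), by simp, ⟨rfl, ha⟩, ?_, cBV C θ' a 3, hT.2.2⟩
      show O (θ'.1⁻¹ (θ'.1 a))
      simpa using ha
  all_goals exact hx.elim

/-- If `m` is odd and `G_ν` has a Hamilton cycle then `ν` is even. -/
theorem even_of_HC (hm : Odd m) (hm2 : 1 < m) (hL : 0 < L) (ν : Perm (Fin m))
    (C : HC (Gr L ν)) : Perm.sign ν = 1 := by
  classical
  have hm0 : 0 < m := by omega
  obtain ⟨θ, h⟩ := all_thru C hm0
  set ρ : Perm (Fin m) := ν⁻¹ * θ.1 with hρ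
  have hsame : ∀ i, ρ.SameCycle ⟨0, hm0⟩ i := by
    intro i
    by_contra hi
    refine orbit_full C hL θ h (fun i => ¬ ρ.SameCycle ⟨0, hm0⟩ i) ?_ ?_ i hi
    · intro i
      rw [← hρ, Perm.sameCycle_apply_right]
    · rintro ⟨i, hi⟩ h0
      simp only at h0
      subst h0
      exact fun h => h (Perm.SameCycle.refl _ _)
  have hne : ρ ⟨0, hm0⟩ ≠ ⟨0, hm0⟩ := by
    intro h0
    have h1 := hsame ⟨1, hm2⟩
    rw [Perm.SameCycle] at h1
    obtain ⟨z, hz⟩ := h1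
    rw [Perm.zpow_apply_eq_self_of_apply_eq_self h0] at hz
    simp at hz
  have hcyc : ρ.IsCycle := ⟨_, hne, fun y _ => hsame y⟩
  have hsupp : ρ.support = Finset.univ := by
    rw [Finset.eq_univ_iff_forall]
    intro i
    rw [Perm.mem_support]
    exact fun h => hne ((hsame i).apply_eq_self_iff.2 h)
  have hs : Perm.sign ρ = 1 := by
    rw [hcyc.sign, hsupp, Finset.card_univ, Fintype.card_fin, hm.neg_one_pow, neg_neg]
  have h2 : Perm.sign ρ = Perm.sign ν := by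
    rw [hρ, Perm.sign_mul, Perm.sign_inv, (Perm.mem_alternatingGroup.1 θ.2), mul_one]
  rw [← h2, hs]

end Pool.Agent.V1120.HamDeck
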