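import Pool.Agent.V1120.HamDeck.Ham

namespace Pool.Agent.V1120.HamDeck

open Equiv

variable {M L : ℕ}

/-- The successor function of a Hamilton cycle of `G_1`. -/
noncomputable def suc (θs : alternatingGroup (Fin (M + 1))) {N : ℕ}
    (e : Fin (N + 1) ≃ {θ : alternatingGroup (Fin (M + 1)) // θ ≠ θs}) (hL : 0 < L) :
    Vtx (M + 1) L → Vtx (M + 1) L
  | .X i => .GB θs i 0
  | .Y j => .H j ⟨L - 1, by omega⟩
  | .H i k => loH i k
  | .GB θ i k => if k.val % 2 = 0 then .GV θ i k
      else if θ = θs then (if k.val = 1 then .GB θ i 2 else .Y (θs.1 i))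
      else .GB θ i (if k.val = 1 then 0 else 2)
  | .GV θ i k => if k.val % 2 = 0 then .GA θ i k else .GB θ i k
  | .GA θ i k => if k.val % 2 = 1 then .GV θ i k
      else if h : θ = θs then .GA θ i (if k.val = 0 then 1 else 3)
      else if k.val = 2 then .GA θ i 1
      else if i.val = 0 then
        (if (e.symm ⟨θ, h⟩).val = 0 then .B
         else .GA (e ⟨(e.symm ⟨θ, h⟩).val - 1, by omega⟩).1 (Fin.last M) 3)
      else .GA θ ⟨i.val - 1, by omega⟩ 3
  | .A => .GA (e (Fin.last N)).1 (Fin.last M) 3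
  | .B => .W
  | .W => .X 0

section
variable (θs : alternatingGroup (Fin (M + 1))) {N : ℕ}
    (e : Fin (N + 1) ≃ {θ : alternatingGroup (Fin (M + 1)) // θ ≠ θs}) (hL : 0 < L)

lemma adj_suc (v : Vtx (M + 1) L) : (Gr L (1 : Perm (Fin (M + 1)))).Adj v (suc θs e hL v) := by
  rw [Gr_adj]
  rcases v with ⟨a, b⟩ | a | a | ⟨θ, a, b⟩ | ⟨θ, a, b⟩ | ⟨θ, a, b⟩ | _ | _ | _
  · -- H
    simp only [suc, loH]
    split_ifs with h1 h2
    · right; exact ⟨h2, h1⟩
    · right; exact ⟨rfl, h2, h1⟩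
    · right; refine ⟨rfl, ?_⟩
      simp only
      omega
  · -- X
    left; exact ⟨rfl, rfl⟩
  · -- Y
    right
    refine ⟨rfl, ?_⟩
    simp only
    omega
  · -- GA
    simp only [suc]
    split_ifs with h1 h2 h3 h4 h5 h6
    · left; exact ⟨rfl, rfl, rfl⟩
    · left; left; refine ⟨rfl, rfl, ?_⟩; simp [h3]
    · left; left; refine ⟨rfl, rfl, ?_⟩
      show b.val + 1 = 3
      omega
    · right; left; refine ⟨rfl, rfl, ?_⟩
      show 1 + 1 = b.val
      omega
    · right
      refine ⟨h5, ?_⟩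
      omega
    · right; right; right
      refine ⟨?_, rfl, rfl, h5, by omega⟩
      intro h
      have : (e ⟨(e.symm ⟨θ, h2⟩).val - 1, by omega⟩) = ⟨θ, h2⟩ := Subtype.ext h
      have h7 := congrArg (fun x => (e.symm x).val) this
      simp at h7
      omega
    · right; right; left
      refine ⟨rfl, ?_, rfl, by omega⟩
      simp only
      omega
  · -- GV
    simp only [suc]
    split_ifs
    · right; exact ⟨rfl, rfl, rfl⟩
    · left; exact ⟨rfl, rfl, rfl⟩
  · -- GB
    simp only [suc]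
    split_ifs with h1 h2 h3 h4
    · right; exact ⟨rfl, rfl, rfl⟩
    · left; refine ⟨rfl, rfl, ?_⟩
      show b.val + 1 = 2
      omega
    · left; refine ⟨by rw [h2], by omega⟩
    · right; refine ⟨rfl, rfl, ?_⟩
      simp [h4]
    · right; refine ⟨rfl, rfl, ?_⟩
      show 2 + 1 = b.val
      omega
  · -- A
    right
    exact ⟨rfl, rfl⟩
  · -- B
    right; trivial
  · -- W
    right; rfl

/-- Being on the orbit of `X 0`. -/
def Rch (v : Vtx (M + 1) L) : Prop := ∃ k, (suc θs e hL)^[k] (.X 0) = v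

lemma Rch_suc {v w : Vtx (M + 1) L} (h : Rch θs e hL v) (hw : suc θs e hL v = w) :
    Rch θs e hL w := by
  obtain ⟨k, hk⟩ := h
  exact ⟨k + 1, by rw [Function.iterate_succ_apply', hk, hw]⟩

lemma Rch_X0 : Rch θs e hL (.X 0) := ⟨0, rfl⟩

/-- One unit of the star gadget. -/
lemma Rch_unit_star (i : Fin (M + 1)) (h : Rch θs e hL (.X i)) :
    (∀ k, Rch θs e hL (.GA θs i k) ∧ Rch θs e hL (.GV θs i k) ∧ Rch θs e hL (.GB θs i k)) ∧
      Rch θs e hL (.Y (θs.1 i)) := by
  have b0 : Rch θs e hL (.GB θs i 0) := Rch_suc θs e hL h rfl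
  have v0 : Rch θs e hL (.GV θs i 0) := Rch_suc θs e hL b0 (by simp [suc])
  have a0 : Rch θs e hL (.GA θs i 0) := Rch_suc θs e hL v0 (by simp [suc])
  have a1 : Rch θs e hL (.GA θs i 1) := Rch_suc θs e hL a0 (by simp [suc])
  have v1 : Rch θs e hL (.GV θs i 1) := Rch_suc θs e hL a1 (by simp [suc])
  have b1 : Rch θs e hL (.GB θs i 1) := Rch_suc θs e hL v1 (by simp [suc])
  have b2 : Rch θs e hL (.GB θs i 2) := Rch_suc θs e hL b1 (by simp [suc])
  have v2 : Rch θs e hL (.GV θs i 2) := Rch_suc θs e hL b2 (by simp [suc])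
  have a2 : Rch θs e hL (.GA θs i 2) := Rch_suc θs e hL v2 (by simp [suc])
  have a3 : Rch θs e hL (.GA θs i 3) := Rch_suc θs e hL a2 (by simp [suc])
  have v3 : Rch θs e hL (.GV θs i 3) := Rch_suc θs e hL a3 (by simp [suc])
  have b3 : Rch θs e hL (.GB θs i 3) := Rch_suc θs e hL v3 (by simp [suc])
  have y : Rch θs e hL (.Y (θs.1 i)) := Rch_suc θs e hL b3 (by simp [suc])
  refine ⟨?_, y⟩
  intro k
  fin_cases k
  · exact ⟨a0, v0, b0⟩
  · exact ⟨a1, v1, b1⟩
  · exact ⟨a2, v2, b2⟩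
  · exact ⟨a3, v3, b3⟩

/-- One unit of another gadget, traversed backwards. -/
lemma Rch_unit_other (θ : alternatingGroup (Fin (M + 1))) (hθ : θ ≠ θs) (i : Fin (M + 1))
    (a3 : Rch θs e hL (.GA θ i 3)) :
    (∀ k, Rch θs e hL (.GA θ i k) ∧ Rch θs e hL (.GV θ i k) ∧ Rch θs e hL (.GB θ i k)) := by
  have v3 : Rch θs e hL (.GV θ i 3) := Rch_suc θs e hL a3 (by simp [suc])
  have b3 : Rch θs e hL (.GB θ i 3) := Rch_suc θs e hL v3 (by simp [suc])
  have b2 : Rch θs e hL (.GB θ i 2) := Rch_suc θs e hL b3 (by simp [suc, hθ])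
  have v2 : Rch θs e hL (.GV θ i 2) := Rch_suc θs e hL b2 (by simp [suc])
  have a2 : Rch θs e hL (.GA θ i 2) := Rch_suc θs e hL v2 (by simp [suc])
  have a1 : Rch θs e hL (.GA θ i 1) := Rch_suc θs e hL a2 (by simp [suc, hθ])
  have v1 : Rch θs e hL (.GV θ i 1) := Rch_suc θs e hL a1 (by simp [suc])
  have b1 : Rch θs e hL (.GB θ i 1) := Rch_suc θs e hL v1 (by simp [suc])
  have b0 : Rch θs e hL (.GB θ i 0) := Rch_suc θs e hL b1 (by simp [suc, hθ])
  have v0 : Rch θs e hL (.GV θ i 0) := Rch_suc θs e hL b0 (by simp [suc])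
  have a0 : Rch θs e hL (.GA θ i 0) := Rch_suc θs e hL v0 (by simp [suc])
  intro k
  fin_cases k
  · exact ⟨a0, v0, b0⟩
  · exact ⟨a1, v1, b1⟩
  · exact ⟨a2, v2, b2⟩
  · exact ⟨a3, v3, b3⟩

/-- A whole handle is reached from its end. -/
lemma Rch_handle (j : Fin (M + 1)) (h : Rch θs e hL (.Y j)) (k : Fin L) :
    Rch θs e hL (.H j k) := by
  have key : ∀ d (k : Fin L), k.val + d = L - 1 → Rch θs e hL (.H j k) := by
    intro d
    induction d with
    | zero =>
      intro k hk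
      refine Rch_suc θs e hL h ?_
      simp only [suc]
      congr 1
      apply Fin.ext
      simp only
      omega
    | succ d ih =>
      intro k hk
      have h1 := ih ⟨k.val + 1, by omega⟩ (by simp only; omega)
      refine Rch_suc θs e hL h1 ?_
      simp only [suc, loH]
      rw [if_neg (by omega)]
      congr 1
  exact key (L - 1 - k.val) k (by omega)

/-- All `X i` are reached when the star permutation is the rotation. -/
lemma Rch_X (hθs : θs.1 = finRotate (M + 1)) (i : Fin (M + 1)) : Rch θs e hL (.X i) := by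
  have key : ∀ n (hn : n < M + 1), Rch θs e hL (.X ⟨n, hn⟩) := by
    intro n
    induction n with
    | zero => intro _; exact Rch_X0 θs e hL
    | succ n ih =>
      intro hn
      have h1 := (Rch_unit_star θs e hL ⟨n, by omega⟩ (ih (by omega))).2
      have h2 : θs.1 ⟨n, by omega⟩ = ⟨n + 1, hn⟩ := by
        rw [hθs, finRotate_of_lt (by omega)]
      rw [h2] at h1
      have h3 := Rch_handle θs e hL _ h1 ⟨0, hL⟩
      refine Rch_suc θs e hL h3 ?_
      simp [suc, loH]
  exact key i.val i.isLt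

lemma Rch_A (hθs : θs.1 = finRotate (M + 1)) : Rch θs e hL .A := by
  have h1 := (Rch_unit_star θs e hL (Fin.last M) (Rch_X θs e hL hθs _)).2
  have h2 : θs.1 (Fin.last M) = 0 := by
    rw [hθs]
    exact finRotate_last
  rw [h2] at h1
  have h3 := Rch_handle θs e hL _ h1 ⟨0, hL⟩
  refine Rch_suc θs e hL h3 ?_
  simp [suc, loH]

/-- If the last unit of another gadget is entered, the whole gadget is covered. -/
lemma Rch_gadget (θ : alternatingGroup (Fin (M + 1))) (hθ : θ ≠ θs)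
    (h : Rch θs e hL (.GA θ (Fin.last M) 3)) (i : Fin (M + 1)) :
    (∀ k, Rch θs e hL (.GA θ i k) ∧ Rch θs e hL (.GV θ i k) ∧ Rch θs e hL (.GB θ i k)) := by
  have key : ∀ d (i : Fin (M + 1)), i.val + d = M → Rch θs e hL (.GA θ i 3) := by
    intro d
    induction d with
    | zero =>
      intro i hi
      have : i = Fin.last M := Fin.ext (by simpa using hi)
      rw [this]; exact h
    | succ d ih =>
      intro i hi
      have h1 := ih ⟨i.val + 1, by omega⟩ (by simp only; omega)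
      have h2 := (Rch_unit_other θs e hL θ hθ _ h1 0).1
      refine Rch_suc θs e hL h2 ?_
      simp [suc, hθ]
  exact Rch_unit_other θs e hL θ hθ i (key (M - i.val) i (by omega))

lemma Rch_last (hA : Rch θs e hL .A) (r : Fin (N + 1)) :
    Rch θs e hL (.GA (e r).1 (Fin.last M) 3) := by
  have key : ∀ d (r : Fin (N + 1)), r.val + d = N →
      Rch θs e hL (.GA (e r).1 (Fin.last M) 3) := by
    intro d
    induction d with
    | zero =>
      intro r hr
      have : r = Fin.last N := Fin.ext (by simpa using hr)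
      rw [this]
      exact Rch_suc θs e hL hA rfl
    | succ d ih =>
      intro r hr
      have h1 := ih ⟨r.val + 1, by omega⟩ (by simp only; omega)
      have h2 := (Rch_gadget θs e hL _ (e ⟨r.val + 1, by omega⟩).2 h1 0 0).1
      refine Rch_suc θs e hL h2 ?_
      have h3 : ¬ (e ⟨r.val + 1, by omega⟩).1 = θs := (e ⟨r.val + 1, by omega⟩).2
      simp [suc, h3]
  exact key (N - r.val) r (by omega)

lemma Rch_all (hθs : θs.1 = finRotate (M + 1)) (v : Vtx (M + 1) L) : Rch θs e hL v := by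
  have hX := Rch_X θs e hL hθs
  have hA := Rch_A θs e hL hθs
  have hY : ∀ j, Rch θs e hL (.Y j) := by
    intro j
    have h := (Rch_unit_star θs e hL (θs.1⁻¹ j) (hX _)).2
    have : θs.1 (θs.1⁻¹ j) = j := by simp
    rwa [this] at h
  have hG : ∀ θ i k, Rch θs e hL (.GA θ i k) ∧ Rch θs e hL (.GV θ i k) ∧
      Rch θs e hL (.GB θ i k) := by
    intro θ i k
    by_cases hθ : θ = θs
    · rw [hθ]; exact (Rch_unit_star θs e hL i (hX _)).1 k
    · have h := Rch_last θs e hL hA (e.symm ⟨θ, hθ⟩)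
      rw [Equiv.apply_symm_apply] at h
      exact Rch_gadget θs e hL θ hθ h i k
  have hB : Rch θs e hL .B := by
    have h := (hG (e 0).1 0 0).1
    refine Rch_suc θs e hL h ?_
    have h3 : ¬ (e 0).1 = θs := (e 0).2
    simp [suc, h3]
  have hW : Rch θs e hL .W := Rch_suc θs e hL hB rfl
  rcases v with ⟨a, b⟩ | a | a | ⟨θ, a, b⟩ | ⟨θ, a, b⟩ | ⟨θ, a, b⟩ | _ | _ | _
  · exact Rch_handle θs e hL a (hY a) b
  · exact hX a
  · exact hY a
  · exact (hG θ a b).1
  · exact (hG θ a b).2.1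
  · exact (hG θ a b).2.2
  · exact hA
  · exact hB
  · exact hW

end

/-- `G_1` has a Hamilton cycle. -/
theorem ham_one (hM : Even M) (hM2 : 2 ≤ M) (hL : 0 < L) :
    ∃ (v : Vtx (M + 1) L) (p : (Gr L (1 : Perm (Fin (M + 1)))).Walk v v),
      p.IsHamiltonianCycle := by
  classical
  have hs : finRotate (M + 1) ∈ alternatingGroup (Fin (M + 1)) := by
    rw [Perm.mem_alternatingGroup, sign_finRotate, Nat.add_sub_cancel, hM.neg_one_pow]
  set θs : alternatingGroup (Fin (M + 1)) := ⟨finRotate (M + 1), hs⟩ with hθs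
  have hne : (1 : alternatingGroup (Fin (M + 1))) ≠ θs := by
    intro h
    have h1 : (1 : Perm (Fin (M + 1))) ⟨0, by omega⟩ = finRotate (M + 1) ⟨0, by omega⟩ :=
      congrArg (fun x : alternatingGroup (Fin (M + 1)) => x.1 ⟨0, by omega⟩) h
    rw [finRotate_of_lt (by omega)] at h1
    simp at h1
  have hcard : 0 < Fintype.card {θ : alternatingGroup (Fin (M + 1)) // θ ≠ θs} :=
    Fintype.card_pos_iff.2 ⟨⟨1, hne⟩⟩
  obtain ⟨N, hN⟩ : ∃ N, Fintype.card {θ : alternatingGroup (Fin (M + 1)) // θ ≠ θs} = N + 1 :=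
    ⟨_, (Nat.succ_pred_eq_of_pos hcard).symm⟩
  let e : Fin (N + 1) ≃ {θ : alternatingGroup (Fin (M + 1)) // θ ≠ θs} :=
    (Fintype.equivFinOfCardEq hN).symm
  refine exists_ham_of_succ _ (suc θs e hL) (.X 0) (adj_suc θs e hL)
    (fun v => Rch_all θs e hL rfl v) ⟨.W, rfl⟩ ?_
  rw [card_Vtx, Kc]
  omega

end Pool.Agent.V1120.HamDeck
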